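import Pool.Graph.R_seed8.H378R2.PS.Fin

set_option autoImplicit false
set_option linter.unusedVariables false

/-! # Quadratic polynomials whose first prime value comes late, in residue classes -/

namespace Pool.Agent.Helper64.LF

open Finset Filter
open Pool.Agent.H256R2.SC (covering)
open Pool.Agent.H256R2.SC.LG (exists_crt count_Ioc)
open Pool.Agent.H378R2.PS (SurvStmt surv_holds V1 FF ana2 count_two)

open scoped Classical

/-- a solution of a linear congruence -/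
theorem solve (p : ℕ) (hp : p.Prime) (k : ℕ) (hk : ¬ p ∣ k) (c : ℤ) :
    ∃ a : ℕ, (p : ℤ) ∣ (k : ℤ) * a - c := by
  have hcop : IsCoprime (k : ℤ) (p : ℤ) := by
    rw [Nat.isCoprime_iff_coprime]
    exact ((Nat.Prime.coprime_iff_not_dvd hp).mpr hk).symm
  obtain ⟨u, v, huv⟩ := hcop
  refine ⟨((u * c) % (p : ℤ)).toNat, ?_⟩
  have h0 : (0 : ℤ) ≤ (u * c) % (p : ℤ) := Int.emod_nonneg _ (by exact_mod_cast hp.ne_zero)
  rw [Int.toNat_of_nonneg h0]
  have h1 := Int.emod_add_mul_ediv (u * c) (p : ℤ)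
  refine ⟨-(v * c) - k * (u * c / p), ?_⟩
  linear_combination (k : ℤ) * h1 + c * huv

/-- the residue classes -/
theorem classes (α β T : ℕ) (y : ℝ) (hT : α ∣ T) (h2 : 2 ∣ T) :
    ∃ cls : ℕ → ℕ, ∀ p : ℕ, p.Prime →
      (p ∣ T → cls p = 1) ∧
      (¬ p ∣ T → Real.log p ≤ V1 y →
        (p : ℤ) ∣ 4 * α * T ^ 2 * (cls p : ℤ) - (T ^ 2 * β ^ 2 - 4)) ∧
      (¬ p ∣ T → V1 y < Real.log p →
        (p : ℤ) ∣ 4 * α * T ^ 2 * (cls p : ℤ) - (T ^ 2 * β ^ 2 - 1)) := by
  have key : ∀ p : ℕ, ∃ a : ℕ, p.Prime →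
      (p ∣ T → a = 1) ∧
      (¬ p ∣ T → Real.log p ≤ V1 y →
        (p : ℤ) ∣ 4 * α * T ^ 2 * (a : ℤ) - (T ^ 2 * β ^ 2 - 4)) ∧
      (¬ p ∣ T → V1 y < Real.log p →
        (p : ℤ) ∣ 4 * α * T ^ 2 * (a : ℤ) - (T ^ 2 * β ^ 2 - 1)) := by
    intro p
    by_cases hp : p.Prime
    · by_cases hpT : p ∣ T
      · exact ⟨1, fun _ => ⟨fun _ => rfl, fun h => absurd hpT h, fun h => absurd hpT h⟩⟩
      · have hk : ¬ p ∣ 4 * α * T ^ 2 := by
          intro hd
          rcases (Nat.Prime.dvd_mul hp).1 hd with h | h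
          · rcases (Nat.Prime.dvd_mul hp).1 h with h' | h'
            · have : p ∣ 2 := by
                have h4 : p ∣ 2 ^ 2 := by norm_num; exact h'
                exact hp.dvd_of_dvd_pow h4
              exact hpT (this.trans h2)
            · exact hpT (h'.trans hT)
          · exact hpT (hp.dvd_of_dvd_pow h)
        by_cases hl : Real.log p ≤ V1 y
        · obtain ⟨a, ha⟩ := solve p hp _ hk ((T : ℤ) ^ 2 * β ^ 2 - 4)
          refine ⟨a, fun _ => ⟨fun h => absurd h hpT, fun _ _ => ?_, fun _ h => absurd hl (not_le.mpr h)⟩⟩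
          push_cast at ha
          exact ha
        · obtain ⟨a, ha⟩ := solve p hp _ hk ((T : ℤ) ^ 2 * β ^ 2 - 1)
          refine ⟨a, fun _ => ⟨fun h => absurd h hpT, fun _ h => absurd h hl, fun _ _ => ?_⟩⟩
          push_cast at ha
          exact ha
    · exact ⟨0, fun h => absurd h hp⟩
  choose cls hcls using key
  exact ⟨cls, hcls⟩

/-- the survivors avoid `± 2`, `± 1` -/
theorem avoid {α β T : ℕ} {y : ℝ} {cls : ℕ → ℕ} {p : ℕ} (hp : p.Prime)
    (hc : (p ∣ T → cls p = 1) ∧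
      (¬ p ∣ T → Real.log p ≤ V1 y →
        (p : ℤ) ∣ 4 * α * T ^ 2 * (cls p : ℤ) - (T ^ 2 * β ^ 2 - 4)) ∧
      (¬ p ∣ T → V1 y < Real.log p →
        (p : ℤ) ∣ 4 * α * T ^ 2 * (cls p : ℤ) - (T ^ 2 * β ^ 2 - 1)))
    (hT : α ∣ T) (h2 : 2 ∣ T) (h5 : 5 ≤ p) {x m : ℕ} (hm : m = T * (2 * α * x + β)) (hm3 : 3 ≤ m)
    (h : ¬ p ∣ T → ¬ ((p : ℤ) ∣ (cls p : ℤ) + (α * (x : ℤ) ^ 2 + β * x))) :
    (Real.log p ≤ V1 y → ¬ (p ∣ (m - 2)) ∧ ¬ (p ∣ (m + 2))) ∧
      (V1 y < Real.log p → ¬ (p ∣ (m - 1)) ∧ ¬ (p ∣ (m + 1))) := by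
  by_cases hpT : p ∣ T
  · have hpm : p ∣ m := by rw [hm]; exact hpT.mul_right _
    refine ⟨fun _ => ⟨fun hd => ?_, fun hd => ?_⟩, fun _ => ⟨fun hd => ?_, fun hd => ?_⟩⟩
    · have h1 := (Nat.dvd_sub_iff_right (by omega : 2 ≤ m) hpm).1 hd
      have := Nat.le_of_dvd (by norm_num) h1
      omega
    · have h1 := (Nat.dvd_add_right hpm).1 hd
      have := Nat.le_of_dvd (by norm_num) h1
      omega
    · have h1 := (Nat.dvd_sub_iff_right (by omega : 1 ≤ m) hpm).1 hd
      have := Nat.le_of_dvd (by norm_num) h1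
      omega
    · have h1 := (Nat.dvd_add_right hpm).1 hd
      have := Nat.le_of_dvd (by norm_num) h1
      omega
  · have h' := h hpT
    have hp' : Prime (p : ℤ) := Nat.prime_iff_prime_int.mp hp
    have hnot : ¬ (p : ℤ) ∣ 4 * α * T ^ 2 := by
      intro hd
      have hd' : p ∣ 4 * α * T ^ 2 := by exact_mod_cast hd
      rcases (Nat.Prime.dvd_mul hp).1 hd' with h3 | h3
      · rcases (Nat.Prime.dvd_mul hp).1 h3 with h4 | h4
        · have : p ∣ 2 := by
            have h4' : p ∣ 2 ^ 2 := by norm_num; exact h4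
            exact hp.dvd_of_dvd_pow h4'
          exact hpT (this.trans h2)
        · exact hpT (h4.trans hT)
      · exact hpT (hp.dvd_of_dvd_pow h3)
    have hmz : (m : ℤ) = T * (2 * α * x + β) := by rw [hm]; push_cast; ring
    constructor
    · intro hl
      have h1 := hc.2.1 hpT hl
      have key : ¬ (p : ℤ) ∣ ((m : ℤ) - 2) * ((m : ℤ) + 2) := by
        intro hd
        have e : (4 * α * T ^ 2 : ℤ) * ((cls p : ℤ) + (α * (x : ℤ) ^ 2 + β * x)) =
            (4 * α * T ^ 2 * (cls p : ℤ) - (T ^ 2 * β ^ 2 - 4)) +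
              ((m : ℤ) - 2) * ((m : ℤ) + 2) := by rw [hmz]; ring
        have h3 : (p : ℤ) ∣ (4 * α * T ^ 2 : ℤ) * ((cls p : ℤ) + (α * (x : ℤ) ^ 2 + β * x)) := by
          rw [e]; exact dvd_add h1 hd
        rcases hp'.dvd_or_dvd h3 with h4 | h4
        · exact hnot h4
        · exact h' h4
      constructor
      · intro hd
        apply key
        have : (p : ℤ) ∣ (m : ℤ) - 2 := by
          have h2 : ((m - 2 : ℕ) : ℤ) = (m : ℤ) - 2 := by push_cast [Nat.cast_sub (by omega : 2 ≤ m)]; ring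
          rw [← h2]
          exact_mod_cast hd
        exact Dvd.dvd.mul_right this _
      · intro hd
        apply key
        have : (p : ℤ) ∣ (m : ℤ) + 2 := by exact_mod_cast hd
        exact Dvd.dvd.mul_left this _
    · intro hl
      have h1 := hc.2.2 hpT hl
      have key : ¬ (p : ℤ) ∣ ((m : ℤ) - 1) * ((m : ℤ) + 1) := by
        intro hd
        have e : (4 * α * T ^ 2 : ℤ) * ((cls p : ℤ) + (α * (x : ℤ) ^ 2 + β * x)) =
            (4 * α * T ^ 2 * (cls p : ℤ) - (T ^ 2 * β ^ 2 - 1)) +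
              ((m : ℤ) - 1) * ((m : ℤ) + 1) := by rw [hmz]; ring
        have h3 : (p : ℤ) ∣ (4 * α * T ^ 2 : ℤ) * ((cls p : ℤ) + (α * (x : ℤ) ^ 2 + β * x)) := by
          rw [e]; exact dvd_add h1 hd
        rcases hp'.dvd_or_dvd h3 with h4 | h4
        · exact hnot h4
        · exact h' h4
      constructor
      · intro hd
        apply key
        have : (p : ℤ) ∣ (m : ℤ) - 1 := by
          have h2 : ((m - 1 : ℕ) : ℤ) = (m : ℤ) - 1 := by push_cast [Nat.cast_sub (by omega : 1 ≤ m)]; ring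
          rw [← h2]
          exact_mod_cast hd
        exact Dvd.dvd.mul_right this _
      · intro hd
        apply key
        have : (p : ℤ) ∣ (m : ℤ) + 1 := by exact_mod_cast hd
        exact Dvd.dvd.mul_left this _

/-- distinct colours -/
theorem distinct {α β : ℕ} (hα : 1 ≤ α) {p L : ℕ} (hp : p.Prime) (hpL : 2 * L < p)
    {k l : ℕ} (hk : α * k + β ≤ L) (hl : α * l + β ≤ L) (hkl : k ≠ l) :
    ¬ ((p : ℤ) ∣ (-(α * (k : ℤ) ^ 2 + β * k)) - (-(α * (l : ℤ) ^ 2 + β * l))) := by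
  intro hd
  have h1 : (p : ℤ) ∣ ((l : ℤ) - k) * (α * ((l : ℤ) + k) + β) := by
    have e : ((l : ℤ) - k) * (α * ((l : ℤ) + k) + β) =
        (-(α * (k : ℤ) ^ 2 + β * k)) - (-(α * (l : ℤ) ^ 2 + β * l)) := by ring
    rw [e]; exact hd
  have hkL : k ≤ L := by nlinarith
  have hlL : l ≤ L := by nlinarith
  have hp' : Prime (p : ℤ) := Nat.prime_iff_prime_int.mp hp
  rcases hp'.dvd_or_dvd h1 with h2 | h2
  · have h3 : (l : ℤ) - k ≠ 0 := by
      intro h0
      apply hkl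
      have : (l : ℤ) = k := by linarith
      exact_mod_cast this.symm
    have h4 := Int.le_of_dvd (abs_pos.mpr h3) ((dvd_abs _ _).mpr h2)
    have h5 : |(l : ℤ) - k| ≤ L := by
      rw [abs_le]
      constructor <;> omega
    omega
  · have h3' : 0 < l + k := by omega
    have h3'' : 0 < α * (l + k) + β := by
      have : 0 < α * (l + k) := Nat.mul_pos hα h3'
      omega
    have h3 : 0 < (α : ℤ) * ((l : ℤ) + k) + β := by exact_mod_cast h3''
    have h4 := Int.le_of_dvd h3 h2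
    have h5 : α * (l + k) + β ≤ 2 * L := by
      have : α * (l + k) = α * l + α * k := by ring
      omega
    have h6 : (α : ℤ) * ((l : ℤ) + k) + β ≤ 2 * L := by exact_mod_cast h5
    omega

end Pool.Agent.Helper64.LF
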