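import Pool.Agent.Helper64.LF.Main

set_option autoImplicit false
set_option maxHeartbeats 4000000
set_option linter.unusedVariables false

/-! # Quadratic polynomials whose first prime value comes late: the theorem -/

namespace Pool.Agent.Helper64.LF

open Finset Filter
open Pool.Agent.H256R2.SC (covering)
open Pool.Agent.H256R2.SC.LG (exists_crt count_Ioc)
open Pool.Agent.H378R2.PS (SurvStmt surv_holds V1 FF ana2 count_two)

open scoped Classical

/-- primes up to `n` that do not divide `Q` -/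
noncomputable def PQ (Q n : ℕ) : ℕ := ∏ p ∈ (Finset.range (n + 1)).filter (fun p => p.Prime ∧ ¬ p ∣ Q), p

theorem PQ_pos (Q n : ℕ) : 0 < PQ Q n :=
  Finset.prod_pos fun p hp => (Finset.mem_filter.1 hp).2.1.pos

theorem PQ_dvd (Q n : ℕ) : PQ Q n ∣ primorial n := by
  unfold PQ primorial
  apply Finset.prod_dvd_prod_of_subset
  intro p hp
  rw [Finset.mem_filter] at hp ⊢
  exact ⟨hp.1, hp.2.1⟩

theorem prime_dvd_PQ {Q n p : ℕ} (hp : p.Prime) (h : p ∣ PQ Q n) : p ≤ n ∧ ¬ p ∣ Q := by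
  unfold PQ at h
  rw [Prime.dvd_finsetProd_iff hp.prime] at h
  obtain ⟨p', hp', hpp'⟩ := h
  rw [Finset.mem_filter, Finset.mem_range] at hp'
  have h4 : p = p' := (Nat.prime_dvd_prime_iff_eq hp hp'.2.1).1 hpp'
  subst h4
  exact ⟨by omega, hp'.2.2⟩

theorem dvd_PQ {Q n p : ℕ} (hp : p.Prime) (hpn : p ≤ n) (hpQ : ¬ p ∣ Q) : p ∣ PQ Q n := by
  unfold PQ
  apply Finset.dvd_prod_of_mem
  rw [Finset.mem_filter, Finset.mem_range]
  exact ⟨by omega, hp, hpQ⟩

theorem PQ_coprime (Q n : ℕ) : Nat.Coprime (PQ Q n) Q := by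
  rw [Nat.coprime_iff_gcd_eq_one]
  by_contra hne
  obtain ⟨p, hp, hpd⟩ := Nat.exists_prime_and_dvd hne
  exact (prime_dvd_PQ hp (hpd.trans (Nat.gcd_dvd_left _ _))).2 (hpd.trans (Nat.gcd_dvd_right _ _))

/-- the size of the modulus -/
theorem size (K : ℝ) : ∃ X₀ : ℝ, ∀ X : ℝ, X₀ ≤ X → 1 < X ∧ K ≤ Real.log X ∧
    K * (primorial ⌊Real.log X / 10⌋₊ : ℝ) * X ^ (1 / 2 : ℝ) ≤ X := by
  have h1 := Real.tendsto_log_atTop.eventually_ge_atTop K
  have h2 := (tendsto_rpow_atTop (show (0:ℝ) < 1 / 4 by norm_num)).eventually_ge_atTop (|K|)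
  obtain ⟨X₀, hX₀⟩ := eventually_atTop.1 ((h1.and h2).and (eventually_gt_atTop (1:ℝ)))
  refine ⟨X₀, fun X hX => ?_⟩
  obtain ⟨⟨e1, e2⟩, e3⟩ := hX₀ X hX
  refine ⟨e3, e1, ?_⟩
  have hX0 : 0 < X := by linarith
  have hlog : 0 < Real.log X := Real.log_pos e3
  have h4 : (primorial ⌊Real.log X / 10⌋₊ : ℝ) ≤ X ^ (1 / 4 : ℝ) := by
    have h5 : (primorial ⌊Real.log X / 10⌋₊ : ℝ) ≤ (4 : ℝ) ^ (⌊Real.log X / 10⌋₊) := by
      exact_mod_cast primorial_le_four_pow _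
    have h6 : (4 : ℝ) ^ (⌊Real.log X / 10⌋₊) ≤ (4 : ℝ) ^ (Real.log X / 10) := by
      rw [← Real.rpow_natCast]
      exact Real.rpow_le_rpow_of_exponent_le (by norm_num) (Nat.floor_le (by positivity))
    have h7 : (4 : ℝ) ^ (Real.log X / 10) ≤ X ^ (1 / 4 : ℝ) := by
      rw [Real.rpow_def_of_pos (by norm_num : (0:ℝ) < 4), Real.rpow_def_of_pos hX0]
      apply Real.exp_le_exp.mpr
      have h8 : Real.log 4 ≤ 2 := by
        have : Real.log 4 = 2 * Real.log 2 := by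
          rw [show (4:ℝ) = 2 ^ 2 by norm_num, Real.log_pow]; norm_num
        rw [this]
        have := Real.log_two_lt_d9
        linarith
      nlinarith
    linarith
  have h9 : X ^ (1 / 4 : ℝ) * X ^ (1 / 4 : ℝ) * X ^ (1 / 2 : ℝ) = X := by
    rw [← Real.rpow_add hX0, ← Real.rpow_add hX0]
    norm_num
  have hp2 : 0 ≤ X ^ (1 / 2 : ℝ) := by positivity
  have hp4 : 0 ≤ X ^ (1 / 4 : ℝ) := by positivity
  calc K * (primorial ⌊Real.log X / 10⌋₊ : ℝ) * X ^ (1 / 2 : ℝ)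
      ≤ |K| * (primorial ⌊Real.log X / 10⌋₊ : ℝ) * X ^ (1 / 2 : ℝ) := by
        gcongr; exact le_abs_self K
    _ ≤ X ^ (1 / 4 : ℝ) * X ^ (1 / 4 : ℝ) * X ^ (1 / 2 : ℝ) := by gcongr
    _ = X := h9

theorem late (α β Q : ℕ) (hα : 1 ≤ α) (hQ : 1 ≤ Q) (a₀ : ℤ) :
    ∃ c : ℝ, 0 < c ∧ ∃ X₀ : ℝ, ∀ X : ℝ, X₀ ≤ X → ∀ M : ℝ, X ≤ M →
    ∃ A : ℕ, M < A ∧ (A : ℝ) ≤ M + X ∧ (Q : ℤ) ∣ A - a₀ ∧
      (∀ p : ℕ, p.Prime → ¬ p ∣ Q → ∃ x : ℕ, ¬ p ∣ α * x ^ 2 + β * x + A) ∧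
      ∀ x : ℕ, (x : ℝ) ≤ c * FF X → ¬ (α * x ^ 2 + β * x + A).Prime := by
  obtain ⟨T, hTdef⟩ : ∃ T : ℕ, T = 6 * α * Q := ⟨_, rfl⟩
  have hT0 : 0 < T := by rw [hTdef]; positivity
  have hTα : α ∣ T := ⟨6 * Q, by rw [hTdef]; ring⟩
  have hT2 : 2 ∣ T := ⟨3 * α * Q, by rw [hTdef]; ring⟩
  have hT3 : 3 ∣ T := ⟨2 * α * Q, by rw [hTdef]; ring⟩
  have hTQ : Q ∣ T := ⟨6 * α, by rw [hTdef]; ring⟩
  have hT6 : 6 ≤ T := by rw [hTdef]; nlinarith
  obtain ⟨c₁, hc₁, X₁, hcov⟩ := covering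
  obtain ⟨C, hC, y₀, hsur⟩ := surv_holds
  obtain ⟨c₀, hc₀, X₂, hana⟩ := ana2 (y₀ := y₀) hc₁ hC
  obtain ⟨X₃, hsize⟩ := size (4 * Q + 20 * T * β + 10 * T + 10)
  have hTR : (0:ℝ) < T := by exact_mod_cast hT0
  have hαR : (0:ℝ) < α := by exact_mod_cast (Nat.lt_of_lt_of_le Nat.zero_lt_one hα)
  refine ⟨c₀ / (4 * α * T), by positivity, max X₁ (max X₂ X₃), fun X hX M hM => ?_⟩
  obtain ⟨y, hy⟩ : ∃ y : ℝ, y = Real.log X / 10 := ⟨_, rfl⟩
  obtain ⟨L, hL⟩ : ∃ L : ℕ, L = ⌊c₀ * FF X⌋₊ := ⟨_, rfl⟩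
  obtain ⟨a1, a2, a3, a4, a5, a6, a7, a8, a9, a10, a11, a12, a13, a14, a15⟩ :=
    hana X (((le_max_left _ _).trans (le_max_right _ _)).trans hX) y _ hy rfl L hL
  obtain ⟨s1, s2, s3⟩ := hsize X (((le_max_right _ _).trans (le_max_right _ _)).trans hX)
  have hX0 : 0 < X := by linarith
  have hQR : (1:ℝ) ≤ Q := by exact_mod_cast hQ
  have hβR : (0:ℝ) ≤ β := Nat.cast_nonneg _
  have hTβ : (0:ℝ) ≤ T * β := by positivity
  have hrew : 20 * (T : ℝ) * β = 20 * (T * β) := by ring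
  have s2' : (T : ℝ) * β ≤ Real.log X / 20 := by rw [hrew] at s2; linarith
  have s2T : (T : ℝ) ≤ y := by rw [hy]; rw [hrew] at s2; linarith
  -- the small primes
  obtain ⟨P, hP⟩ : ∃ P : ℕ, P = PQ Q ⌊y⌋₊ := ⟨_, rfl⟩
  have hP0 : 0 < P := by rw [hP]; exact PQ_pos _ _
  obtain ⟨cls, hcls⟩ := classes α β T y hTα hT2
  obtain ⟨b0, hb0, hb0'⟩ := exists_crt ⌊y⌋₊ cls
  have hcop : Nat.Coprime P Q := by rw [hP]; exact PQ_coprime _ _
  obtain ⟨b1, hb1P, hb1Q⟩ : ∃ b1 : ℤ, (P : ℤ) ∣ b1 - b0 ∧ (Q : ℤ) ∣ b1 - a₀ := by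
    have hcop' : IsCoprime (P : ℤ) (Q : ℤ) := Nat.isCoprime_iff_coprime.mpr hcop
    obtain ⟨u, v, huv⟩ := hcop'
    refine ⟨b0 + P * u * (a₀ - b0), ⟨u * (a₀ - b0), by ring⟩, ⟨-(v * (a₀ - b0)), ?_⟩⟩
    linear_combination (a₀ - b0) * huv
  obtain ⟨PP, hPP⟩ : ∃ PP : ℕ, PP = P * Q := ⟨_, rfl⟩
  have hPP0 : 0 < PP := by rw [hPP]; exact Nat.mul_pos hP0 hQ
  have hy0 : 0 ≤ y := by linarith
  -- the survivors
  obtain ⟨S, hS⟩ : ∃ S : Finset ℕ, S = (Finset.range (L + 1)).filter (fun x : ℕ =>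
      T * (2 * α * x + β) ≤ L ∧
      ∀ p : ℕ, p.Prime → (p : ℝ) ≤ y → ¬ p ∣ Q →
        ¬ ((p : ℤ) ∣ (cls p : ℤ) + (α * (x : ℤ) ^ 2 + β * x))) :=
    ⟨_, rfl⟩
  have hSL : ∀ x ∈ S, T * (2 * α * x + β) ≤ L := by
    intro m hm
    rw [hS, Finset.mem_filter, Finset.mem_range] at hm
    exact hm.2.1
  have hSL' : ∀ x ∈ S, α * x + β ≤ L := by
    intro x hx
    have h1 := hSL x hx
    have h2 : 2 * α * x + β ≤ T * (2 * α * x + β) := Nat.le_mul_of_pos_left _ hT0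
    have h3 : 2 * α * x = 2 * (α * x) := by ring
    omega
  have hinj : Set.InjOn (fun x : ℕ => T * (2 * α * x + β)) (S : Set ℕ) := by
    intro x _ x' _ hxx
    simp only at hxx
    have h1 := Nat.eq_of_mul_eq_mul_left hT0 hxx
    have h2 : 2 * α * x = 2 * α * x' := by omega
    exact Nat.eq_of_mul_eq_mul_left (by positivity : 0 < 2 * α) h2
  have hScard : (S.card : ℝ) ≤ c₁ * Real.log X := by
    have hcard : S.card = (S.image (fun x : ℕ => T * (2 * α * x + β))).card :=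
      (Finset.card_image_of_injOn hinj).symm
    obtain ⟨S', hS'⟩ : ∃ S' : Finset ℕ, S' = S.image (fun x : ℕ => T * (2 * α * x + β)) := ⟨_, rfl⟩
    rw [hcard, ← hS']
    have h1 : S' ⊆ Finset.range 3 ∪ S'.filter (fun m => 3 ≤ m) := by
      intro m hm
      rw [Finset.mem_union, Finset.mem_range, Finset.mem_filter]
      rcases Nat.lt_or_ge m 3 with h2 | h2
      · left; exact h2
      · right; exact ⟨hm, h2⟩
    have h2 := (Finset.card_le_card h1).trans (Finset.card_union_le _ _)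
    rw [Finset.card_range] at h2
    have hloglog : V1 y ≤ Real.log y := by
      unfold V1 at a15 ⊢
      have hly : 0 < Real.log y := Real.log_pos (by linarith)
      rcases le_or_gt (20 * Real.log (Real.log y)) 0 with h8 | h8
      · exfalso
        have h9 : Real.log (Real.log y) ≤ 0 := by linarith
        have hly1 : 1 < Real.log y := by
          have h12 : Real.exp 1 < 3 := Real.exp_one_lt_d9.trans (by norm_num)
          have h11 : Real.log (Real.exp 1) < Real.log y :=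
            Real.log_lt_log (Real.exp_pos _) (by linarith)
          rwa [Real.log_exp] at h11
        have := Real.log_pos hly1
        linarith
      · rw [div_le_iff₀ h8]
        apply mul_le_mul_of_nonneg_left _ hly.le
        have h9 : 0 < Real.log (Real.log y) := by linarith
        have := Real.log_le_sub_one_of_pos h9
        linarith
    have h3 := hsur y a2 L a4 a5 (S'.filter (fun m => 3 ≤ m)) (by
      intro m hm
      rw [Finset.mem_filter, hS', Finset.mem_image] at hm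
      obtain ⟨⟨x, hx, hxm⟩, hm3⟩ := hm
      have hxS := hx
      rw [hS, Finset.mem_filter, Finset.mem_range] at hx
      obtain ⟨hx1, hx2, hx4⟩ := hx
      have hmL : m ≤ L := by rw [← hxm]; exact hx2
      refine ⟨hm3, hmL, fun p hp h5 hl => ?_, fun p hp hl hpy => ?_⟩
      · have hpy : (p : ℝ) ≤ y := by
          by_contra hcon
          push Not at hcon
          have h6 : Real.log y < Real.log p := Real.log_lt_log (by linarith) hcon
          linarith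
        exact (avoid hp (hcls p hp) hTα hT2 h5 hxm.symm hm3
          (fun hpT => hx4 p hp hpy (fun hpQ => hpT (hpQ.trans hTQ)))).1 hl
      · have h5 : 5 ≤ p := by
          by_contra hcon
          have h4 : (p : ℝ) ≤ 5 := by exact_mod_cast (not_le.mp hcon).le
          have h5 : Real.log p ≤ Real.log 5 := Real.log_le_log (by exact_mod_cast hp.pos) h4
          have h6 : Real.log 5 < 2 := by
            have h7 : (5:ℝ) < Real.exp 2 := by
              have h8 := Real.exp_one_gt_d9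
              have h9 : Real.exp 2 = Real.exp 1 * Real.exp 1 := by rw [← Real.exp_add]; norm_num
              rw [h9]
              nlinarith
            calc Real.log 5 < Real.log (Real.exp 2) := Real.log_lt_log (by norm_num) h7
              _ = 2 := Real.log_exp 2
          linarith
        exact (avoid hp (hcls p hp) hTα hT2 h5 hxm.symm hm3
          (fun hpT => hx4 p hp hpy (fun hpQ => hpT (hpQ.trans hTQ)))).2 hl)
    have h4 : (S'.card : ℝ) ≤ 3 + ((S'.filter (fun m => 3 ≤ m)).card : ℝ) := by exact_mod_cast h2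
    linarith
  -- the set of the `A`
  obtain ⟨A, hA⟩ : ∃ A : ℤ, A = ⌊M⌋ := ⟨_, rfl⟩
  obtain ⟨B, hB⟩ : ∃ B : ℤ, B = ⌊M + X⌋ := ⟨_, rfl⟩
  have hAB : A ≤ B := by rw [hA, hB]; exact Int.floor_mono (by linarith)
  have hA1 : (A : ℝ) ≤ M := by rw [hA]; exact Int.floor_le _
  have hA2 : M < (A : ℝ) + 1 := by rw [hA]; exact Int.lt_floor_add_one _
  have hB1 : (B : ℝ) ≤ M + X := by rw [hB]; exact Int.floor_le _
  have hB2 : M + X < (B : ℝ) + 1 := by rw [hB]; exact Int.lt_floor_add_one _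
  have hPR : (0 : ℝ) < P := by exact_mod_cast hP0
  have hPprim : (P : ℝ) ≤ (primorial ⌊y⌋₊ : ℝ) := by
    rw [hP]
    exact_mod_cast Nat.le_of_dvd (primorial_pos _) (PQ_dvd _ _)
  have hX2 : 0 < X ^ (1 / 2 : ℝ) := Real.rpow_pos_of_pos hX0 _
  have hPPR : (PP : ℝ) = P * Q := by rw [hPP]; push_cast; ring
  have hPPpos : (0 : ℝ) < PP := by exact_mod_cast hPP0
  have hprim1 : (1:ℝ) ≤ (primorial ⌊y⌋₊ : ℝ) := by exact_mod_cast primorial_pos _
  have hX1' : 1 ≤ X ^ (1 / 2 : ℝ) := Real.one_le_rpow a1 (by norm_num)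
  have hkey : (4 * Q + 10) * (primorial ⌊y⌋₊ : ℝ) * X ^ (1 / 2 : ℝ) ≤ X := by
    rw [hy]
    refine le_trans ?_ s3
    have hc : (4 * Q + 10 : ℝ) ≤ 4 * Q + 20 * T * β + 10 * T + 10 := by rw [hrew]; linarith
    gcongr
  have hN : X ^ (1 / 2 : ℝ) ≤ ((B : ℝ) - A) / PP := by
    rw [le_div_iff₀ hPPpos, hPPR]
    obtain ⟨z, hz⟩ : ∃ z : ℝ, z = (primorial ⌊y⌋₊ : ℝ) * X ^ (1 / 2 : ℝ) := ⟨_, rfl⟩
    have h3 : X ^ (1 / 2 : ℝ) * ((P : ℝ) * Q) ≤ Q * z := by
      have h30 : (P : ℝ) * Q ≤ (primorial ⌊y⌋₊ : ℝ) * Q := mul_le_mul_of_nonneg_right hPprim (by linarith)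
      calc X ^ (1 / 2 : ℝ) * ((P : ℝ) * Q) ≤ X ^ (1 / 2 : ℝ) * ((primorial ⌊y⌋₊ : ℝ) * Q) :=
            mul_le_mul_of_nonneg_left h30 hX2.le
        _ = Q * z := by rw [hz]; ring
    have h4 : (1:ℝ) ≤ z := by
      rw [hz]
      calc (1:ℝ) = 1 * 1 := by ring
        _ ≤ (primorial ⌊y⌋₊ : ℝ) * X ^ (1 / 2 : ℝ) := mul_le_mul hprim1 hX1' (by norm_num) (by linarith)
    have h5 : (4 * Q + 10) * z ≤ X := by
      rw [hz]
      calc (4 * Q + 10) * ((primorial ⌊y⌋₊ : ℝ) * X ^ (1 / 2 : ℝ)) =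
          (4 * Q + 10) * (primorial ⌊y⌋₊ : ℝ) * X ^ (1 / 2 : ℝ) := by ring
        _ ≤ X := hkey
    have h6 : (Q : ℝ) * z ≤ (4 * Q + 10) * z - 10 * z := by
      have : 0 ≤ (Q : ℝ) * z := by positivity
      linarith
    linarith
  obtain ⟨x, hx, hxS⟩ := hcov X ((le_max_left _ _).trans hX) ∅ (by
      rw [Finset.card_empty, Nat.cast_zero]
      have : 0 ≤ Real.log X := Real.log_nonneg a1
      linarith) {m // m ∈ S} (by rw [Fintype.card_coe]; exact hScard)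
    (fun _ k => -(α * ((k : ℕ) : ℤ) ^ 2 + β * ((k : ℕ) : ℤ)))
    (by
      intro p hp hp1 _ _ k l hkl
      refine distinct hα hp ?_ (hSL' _ k.2) (hSL' _ l.2) (fun h => hkl (Subtype.ext h))
      have : (2 * L : ℝ) < p := by linarith
      exact_mod_cast this)
    ((Ioc A B).filter (fun x => (PP : ℤ) ∣ x - b1)) (((B : ℝ) - A) / PP) 1 hN zero_le_one
    (by linarith) (by
      intro q hq1 hq2 hq3 r
      have hq0 : 0 < q := Nat.pos_of_ne_zero hq1.ne_zero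
      have hcop2 : Nat.Coprime PP q := by
        rw [Nat.coprime_iff_gcd_eq_one]
        by_contra hne
        obtain ⟨p, hp, hpd⟩ := Nat.exists_prime_and_dvd hne
        have h1 : p ∣ PP := hpd.trans (Nat.gcd_dvd_left _ _)
        have h2 : p ∣ q := hpd.trans (Nat.gcd_dvd_right _ _)
        have h3 := (hq3 p (Nat.mem_primeFactors.mpr ⟨hp, h2, hq0.ne'⟩)).1
        rw [hPP] at h1
        rcases (Nat.Prime.dvd_mul hp).1 h1 with h4 | h4
        · rw [hP] at h4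
          have h5 := (prime_dvd_PQ hp h4).1
          have h6 : (p : ℝ) ≤ y := by
            calc (p : ℝ) ≤ (⌊y⌋₊ : ℝ) := by exact_mod_cast h5
              _ ≤ y := Nat.floor_le hy0
          linarith
        · have h5 : p ≤ T := Nat.le_of_dvd hT0 (h4.trans hTQ)
          have h6 : (p : ℝ) ≤ T := by exact_mod_cast h5
          linarith
      exact count_two A B hAB PP q hPP0 hq0 hcop2 b1 r)
  rw [Finset.mem_filter, Finset.mem_Ioc] at hx
  obtain ⟨⟨hx1, hx2⟩, hx3⟩ := hx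
  have hxM : M < (x : ℝ) := by
    have : (A : ℝ) + 1 ≤ x := by exact_mod_cast hx1
    linarith
  have hxX : (x : ℝ) ≤ M + X := by
    have : (x : ℝ) ≤ B := by exact_mod_cast hx2
    linarith
  have hx0 : 0 ≤ x := by
    have : (0 : ℝ) < x := by linarith
    exact_mod_cast this.le
  obtain ⟨n, rfl⟩ := Int.eq_ofNat_of_zero_le hx0
  have hxM' : M < (n : ℝ) := by exact_mod_cast hxM
  have hxX' : (n : ℝ) ≤ M + X := by exact_mod_cast hxX
  have hPPd : (PP : ℤ) ∣ (n : ℤ) - b1 := by simpa using hx3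
  -- small primes
  have hsmall : ∀ p : ℕ, p.Prime → (p : ℝ) ≤ y → ¬ p ∣ Q → (p : ℤ) ∣ (n : ℤ) - (cls p : ℤ) := by
    intro p hp1 hp2 hpQ
    have hpy : p ≤ ⌊y⌋₊ := Nat.le_floor hp2
    have hpP : (p : ℤ) ∣ (P : ℤ) := by
      rw [hP]
      exact_mod_cast dvd_PQ hp1 hpy hpQ
    have hPPP : (P : ℤ) ∣ (PP : ℤ) := by rw [hPP]; push_cast; exact dvd_mul_right _ _
    have h1 : (p : ℤ) ∣ (n : ℤ) - b1 := (hpP.trans hPPP).trans hPPd
    have h1' : (p : ℤ) ∣ b1 - b0 := hpP.trans hb1P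
    have h2 : (p : ℤ) ∣ (b0 : ℤ) - (cls p : ℤ) := by
      have := hb0' p hp1 hpy
      exact (Nat.modEq_iff_dvd.mp this.symm)
    have := dvd_add (dvd_add h1 h1') h2
    have e : (n : ℤ) - b1 + (b1 - b0) + ((b0 : ℤ) - (cls p : ℤ)) = (n : ℤ) - (cls p : ℤ) := by ring
    rwa [e] at this
  have hQPP : (Q : ℤ) ∣ (PP : ℤ) := by rw [hPP]; push_cast; exact dvd_mul_left _ _
  refine ⟨n, hxM', hxX', ?_, ?_, fun m hm hq => ?_⟩
  · have h1 := dvd_add (hQPP.trans hPPd) hb1Q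
    have e : (n : ℤ) - b1 + (b1 - a₀) = (n : ℤ) - a₀ := by ring
    rwa [e] at h1
  · intro p hp hpQ
    by_cases hpT : p ∣ T
    · refine ⟨0, fun hd => ?_⟩
      have hpy : (p : ℝ) ≤ y := by
        have h5 : p ≤ T := Nat.le_of_dvd hT0 hpT
        have h6 : (p : ℝ) ≤ T := by exact_mod_cast h5
        linarith
      have h1 := hsmall p hp hpy hpQ
      rw [(hcls p hp).1 hpT] at h1
      have h2 : (p : ℤ) ∣ (n : ℤ) := by
        have : p ∣ n := by simpa using hd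
        exact_mod_cast this
      have h3 : (p : ℤ) ∣ 1 := by
        have := dvd_sub h2 h1
        simpa using this
      have h4 : p ∣ 1 := by exact_mod_cast h3
      exact hp.one_lt.ne' (Nat.dvd_one.1 h4)
    · by_contra hcon
      push Not at hcon
      have h0 := hcon 0
      have h1 := hcon 1
      have h2 := hcon 2
      have h3 : p ∣ 2 * α := by
        have h0' : (p : ℤ) ∣ ((α * 0 ^ 2 + β * 0 + n : ℕ) : ℤ) := by exact_mod_cast h0
        have h1' : (p : ℤ) ∣ ((α * 1 ^ 2 + β * 1 + n : ℕ) : ℤ) := by exact_mod_cast h1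
        have h2' : (p : ℤ) ∣ ((α * 2 ^ 2 + β * 2 + n : ℕ) : ℤ) := by exact_mod_cast h2
        have h4 : (p : ℤ) ∣ ((2 * α : ℕ) : ℤ) := by
          have := dvd_add (dvd_sub h2' (h1'.mul_left 2)) h0'
          have e : ((α * 2 ^ 2 + β * 2 + n : ℕ) : ℤ) - 2 * ((α * 1 ^ 2 + β * 1 + n : ℕ) : ℤ) +
              ((α * 0 ^ 2 + β * 0 + n : ℕ) : ℤ) = ((2 * α : ℕ) : ℤ) := by push_cast; ring
          rwa [e] at this
        exact_mod_cast h4
      rcases (Nat.Prime.dvd_mul hp).1 h3 with h4 | h4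
      · exact hpT (h4.trans hT2)
      · exact hpT (h4.trans hTα)
  · -- `m` is small
    have hFF : 0 ≤ c₀ * FF X := a14
    have hLF : (L : ℝ) ≤ c₀ * FF X := by rw [hL]; exact Nat.floor_le hFF
    have hyF : y ≤ c₀ * FF X := by linarith
    have hmL : T * (2 * α * m + β) ≤ L := by
      rw [hL]
      apply Nat.le_floor
      push_cast
      have h1 : (T : ℝ) * (2 * α * m) ≤ c₀ * FF X / 2 := by
        have h2 : (T : ℝ) * (2 * α * m) ≤ T * (2 * α * (c₀ / (4 * α * T) * FF X)) := by gcongr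
        have h3 : (T : ℝ) * (2 * α * (c₀ / (4 * α * T) * FF X)) = c₀ * FF X / 2 := by
          field_simp
          norm_num
        linarith
      have h4 : (T : ℝ) * β ≤ c₀ * FF X / 2 := by
        have : Real.log X / 20 = y / 2 := by rw [hy]; ring
        linarith
      have h5 : (T : ℝ) * (2 * α * m + β) = T * (2 * α * m) + T * β := by ring
      rw [h5]
      linarith
    have hnF : (n : ℝ) ≤ ((α * m ^ 2 + β * m + n : ℕ) : ℝ) := by
      push_cast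
      have : (0:ℝ) ≤ α * (m:ℝ) ^ 2 + β * m := by positivity
      linarith
    have hqbig : X / 4 < ((α * m ^ 2 + β * m + n : ℕ) : ℝ) := by
      linarith
    have hprime : ∀ p : ℕ, p.Prime → (p : ℝ) ≤ X / 4 →
        ¬ (p : ℤ) ∣ (n : ℤ) + (α * (m : ℤ) ^ 2 + β * m) := by
      intro p hp hpZ hd
      have hd' : p ∣ α * m ^ 2 + β * m + n := by
        have : (p : ℤ) ∣ ((α * m ^ 2 + β * m + n : ℕ) : ℤ) := by
          push_cast
          have e : (α : ℤ) * m ^ 2 + β * m + n = (n : ℤ) + (α * (m : ℤ) ^ 2 + β * m) := by ring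
          rw [e]; exact hd
        exact_mod_cast this
      have h2 : p = α * m ^ 2 + β * m + n := (Nat.prime_dvd_prime_iff_eq hp hq).1 hd'
      rw [h2] at hpZ
      linarith
    by_cases hsm : ∀ p : ℕ, p.Prime → (p : ℝ) ≤ y → ¬ p ∣ Q →
        ¬ ((p : ℤ) ∣ (cls p : ℤ) + (α * (m : ℤ) ^ 2 + β * m))
    · have hmem : m ∈ S := by
        rw [hS, Finset.mem_filter, Finset.mem_range]
        refine ⟨?_, hmL, hsm⟩
        have h2 : 2 * α * m + β ≤ T * (2 * α * m + β) := Nat.le_mul_of_pos_left _ hT0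
        have h3 : m ≤ 2 * α * m := Nat.le_mul_of_pos_left m (by omega)
        omega
      obtain ⟨p, hp1, hp2, hp3, -, hp4⟩ := hxS ⟨m, hmem⟩
      refine hprime p hp1 (by linarith) ?_
      have e : (n : ℤ) + (α * (m : ℤ) ^ 2 + β * m) = (n : ℤ) - -(α * (m : ℤ) ^ 2 + β * m) := by ring
      rw [e]
      simpa using hp4
    · push Not at hsm
      obtain ⟨p, hp1, hp2, hpQ, hp3⟩ := hsm
      refine hprime p hp1 (by linarith) ?_
      have h4 := dvd_add (hsmall p hp1 hp2 hpQ) hp3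
      have e : (n : ℤ) - (cls p : ℤ) + ((cls p : ℤ) + (α * (m : ℤ) ^ 2 + β * m)) =
          (n : ℤ) + (α * (m : ℤ) ^ 2 + β * m) := by ring
      rwa [e] at h4

end Pool.Agent.Helper64.LF
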